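import Pool.Agent.J6H99.GEO.Gen

set_option autoImplicit false

open MeasureTheory Set ProbabilityTheory Filter
open scoped Topology

/-!
First-passage percolation on `Z^d`: in the coupling, every infinite cluster of zero edges meets an
infinite cluster of marked edges (deterministic part).
-/

namespace Pool.Agent.J6H99.GEO

open Pool.Agent.Y990.CB
open Pool.Agent.Helper401_FP

noncomputable section

variable {d : ℕ} {W : Sym2 (Z d) → ℝ}

/-- The original passage times. -/
def Gz (z : E d → ℝ) : E d → ℝ := fun e => gb (z e)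

/-- The auxiliary passage times. -/
def Hz (z : E d → ℝ) : E d → ℝ := fun e => hb e (z e)

lemma Gz_meas : Measurable (Gz (d := d)) :=
  measurable_pi_lambda _ fun e => gb_meas.comp (measurable_pi_apply e)

lemma Hz_meas : Measurable (Hz (d := d)) :=
  measurable_pi_lambda _ fun e => (hb_meas e).comp (measurable_pi_apply e)

lemma zwalk {a b : Z d} (h : (G (bondM d) (zc W) univ).Reachable a b) :
    ∃ p : (Lat d).Walk a b, ∀ s ∈ p.edges, W s = 0 := by
  obtain ⟨p⟩ := h
  induction p with
  | nil => exact ⟨SimpleGraph.Walk.nil, by simp⟩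
  | cons h q ih =>
    rename_i a b c
    obtain ⟨h1', h2, h3, h4⟩ := adj_zc.1 h
    have h1 : (Lat d).Adj a b := h1'
    obtain ⟨p, hp⟩ := ih
    refine ⟨SimpleGraph.Walk.cons h1 p, ?_⟩
    intro s hs
    rw [SimpleGraph.Walk.edges_cons, List.mem_cons] at hs
    rcases hs with rfl | hs
    · exact h4
    · exact hp s hs

lemma zreach {a b : Z d} (p : (Lat d).Walk a b) (hp : ∀ s ∈ p.edges, W s = 0) :
    (G (bondM d) (zc W) univ).Reachable a b := by
  induction p with
  | nil => exact SimpleGraph.Reachable.refl _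
  | cons h q ih =>
    rename_i a b c
    have h1 : W s(a, b) = 0 := hp _ (by
      rw [SimpleGraph.Walk.edges_cons]; exact List.mem_cons_self)
    refine (SimpleGraph.Adj.reachable ((adj_zc (R := univ)).2
      ⟨h, mem_univ _, mem_univ _, h1⟩)).trans
      (ih fun s hs => hp s ?_)
    rw [SimpleGraph.Walk.edges_cons]
    exact List.mem_cons_of_mem _ hs

lemma edge_le_cost (hW : ∀ s, 0 ≤ W s) {a b : Z d} (p : (Lat d).Walk a b) :
    ∀ s ∈ p.edges, W s ≤ cost W p := by
  induction p with
  | nil => intro s hs; simp at hs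
  | cons hadj q ih =>
    rename_i a b c
    intro s hs
    rw [cost_cons]
    have h1 := hW s(a, b)
    have h2 := cost_nonneg hW q
    rw [SimpleGraph.Walk.edges_cons, List.mem_cons] at hs
    rcases hs with rfl | hs
    · linarith
    · have := ih s hs
      linarith

lemma ed_of_mem {a b : Z d} (p : (Lat d).Walk a b) {s : Sym2 (Z d)} (hs : s ∈ p.edges) :
    ∃ e : E d, ed e = s := by
  have h1 : s ∈ (Lat d).edgeSet := p.edges_subset_edgeSet hs
  induction s using Sym2.inductionOn with
  | hf x y =>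
    have h2 : (Lat d).Adj x y := h1
    exact exists_ed h2

/-- A path of zero edges is cheap for the auxiliary passage times. -/
lemma cost_small {z : E d → ℝ} {a b : Z d} (p : (Lat d).Walk a b)
    (hp : ∀ s ∈ p.edges, wt (Gz z) s = 0) :
    ∃ q : (Lat d).Walk a b, cost (wt (Hz z)) q ≤ 1 := by
  classical
  refine ⟨p.bypass, ?_⟩
  have h2 : p.bypass.edges ⊆ p.edges := p.edges_bypass_subset_edges
  have h3 : p.bypass.edges.Nodup := p.bypass_isPath.isTrail.edges_nodup
  unfold cost
  rw [← List.sum_toFinset (wt (Hz z)) h3]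
  set F := p.bypass.edges.toFinset with hF
  set T : Finset (E d) := F.preimage ed ed_inj.injOn with hT
  have hFT : F = T.image ed := by
    ext s
    rw [Finset.mem_image]
    constructor
    · intro hs
      obtain ⟨e, he⟩ := ed_of_mem p.bypass (List.mem_toFinset.1 hs)
      refine ⟨e, ?_, he⟩
      rw [hT, Finset.mem_preimage, he]
      exact hs
    · rintro ⟨e, he, rfl⟩
      rw [hT, Finset.mem_preimage] at he
      exact he
  rw [hFT, Finset.sum_image (fun x _ y _ h => ed_inj h)]
  refine le_trans (Finset.sum_le_sum fun e he => ?_) (sum_small T)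
  rw [wt_ed]
  refine hb_le ?_
  rw [hT, Finset.mem_preimage] at he
  have h4 := hp (ed e) (h2 (List.mem_toFinset.1 he))
  rw [wt_ed] at h4
  exact h4

/-- Infinite zero clusters meet infinite clusters of marked edges. -/
lemma inf_marked {z : E d → ℝ} {x : Z d} (hbad : ¬ Bad (wt (Hz z)) x)
    (hx : (Zc (wt (Gz z)) x).Infinite) :
    ∃ v ∈ Zc (wt (Gz z)) x, (Zc (wt (Hz z)) v).Infinite := by
  have hW : ∀ s, 0 ≤ wt (Hz z) s := wt_nonneg fun e => hb_nonneg e (z e)
  have hB : (Bs (wt (Hz z)) x 1).Infinite := by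
    refine hx.mono ?_
    intro v hv
    obtain ⟨p, hp⟩ := zwalk hv
    obtain ⟨q, hq⟩ := cost_small p hp
    exact ⟨q, hq⟩
  rcases ball_cases hW hbad with h | ⟨s0, hU, v, ⟨w, hw⟩, hZ⟩
  · exact absurd (h 1) hB
  refine ⟨v, ?_, hZ⟩
  have hs0 : s0 ≤ 1 := by
    by_contra hc
    push Not at hc
    refine hB (hU.subset ?_)
    rintro y ⟨q, hq⟩
    exact ⟨q, lt_of_le_of_lt hq hc⟩
  refine zreach w fun s hs => ?_
  have h1 := edge_le_cost hW w s hs
  obtain ⟨e, rfl⟩ := ed_of_mem w hs
  rw [wt_ed] at h1 ⊢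
  refine hb_lt (e := e) ?_
  have : hb e (z e) ≤ cost (wt (Hz z)) w := h1
  linarith

lemma zc_le {z : E d → ℝ} : ∀ c, zc (wt (Hz z)) c = true → zc (wt (Gz z)) c = true := by
  intro c hc
  unfold zc at hc ⊢
  rw [decide_eq_true_iff] at hc ⊢
  by_cases h : ∃ e : E d, ed e = c
  · obtain ⟨e, rfl⟩ := h
    rw [wt_ed] at hc ⊢
    have h1 : z e = -1 := hb_zero.1 hc
    show gb (z e) = 0
    unfold gb
    rw [if_pos h1]
  · unfold wt at hc
    rw [dif_neg h] at hc
    exact absurd hc one_ne_zero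

/-- Uniqueness passes from marked edges to zero edges. -/
lemma uniq_det {z : E d → ℝ} (hbad : ∀ x, ¬ Bad (wt (Hz z)) x)
    (hu : ∀ u v, zc (wt (Hz z)) ∉ Nu (bondM d) u v) {u v : Z d}
    (h1 : (Zc (wt (Gz z)) u).Infinite) (h2 : (Zc (wt (Gz z)) v).Infinite) :
    v ∈ Zc (wt (Gz z)) u := by
  obtain ⟨u', hu1, hu2⟩ := inf_marked (hbad u) h1
  obtain ⟨v', hv1, hv2⟩ := inf_marked (hbad v) h2
  have h3 : v' ∈ Zc (wt (Hz z)) u' := by
    by_contra hc
    exact hu u' v' ⟨hu2, hv2, hc⟩
  have h4 : v' ∈ Zc (wt (Gz z)) u' := cl_mono (M := bondM d) zc_le (Subset.refl _) u' h3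
  have a1 : (G (bondM d) (zc (wt (Gz z))) univ).Reachable u u' := hu1
  have a2 : (G (bondM d) (zc (wt (Gz z))) univ).Reachable u' v' := h4
  have a3 : (G (bondM d) (zc (wt (Gz z))) univ).Reachable v v' := hv1
  exact (a1.trans a2).trans a3.symm

end

end Pool.Agent.J6H99.GEO
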