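import Pool.Agent.Helper401_FP.Pcd

set_option autoImplicit false

open MeasureTheory Set ProbabilityTheory Filter
open scoped Topology

/-!
First-passage percolation on `Z^d` with independent passage times which need not be identically
distributed: product measures, the law of the zero edges, and a coupling.
(Extension of the library of helper401 from identically distributed passage times.)
-/

namespace Pool.Agent.J6H99.GEO

open Pool.Agent.Y990.CB
open Pool.Agent.W783.PC (pm DepOn Inc bern)
open Pool.Agent.Helper401_FP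
open Pool.Agent.Helper401_HS (not_in Hs PH cl_meas cl_meas' half sg sg_Nb sg_apply mb abs_unit)

noncomputable section

section prod

variable {ι : Type}

/-- **Independence** of events depending on disjoint sets of coordinates. -/
theorem dp_indep' (μ : ι → Measure ℝ) [∀ i, IsProbabilityMeasure (μ i)] {A B : Set (ι → ℝ)}
    {S T : Set ι} (hA : MeasurableSet A) (hB : MeasurableSet B) (dA : Dp A S) (dB : Dp B T)
    (hST : Disjoint S T) :
    Measure.infinitePi μ (A ∩ B) = Measure.infinitePi μ A * Measure.infinitePi μ B := by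
  have h1 : iIndepFun (fun (i : ι) (x : ι → ℝ) => x i) (Measure.infinitePi μ) :=
    iIndepFun_infinitePi (X := fun _ (y : ℝ) => y) (fun _ => measurable_id)
  have h2 : iIndep (fun i : ι => MeasurableSpace.comap (fun x : ι → ℝ => x i) inferInstance)
      (Measure.infinitePi μ) := h1
  have h3 := indep_iSup_of_disjoint (fun i => (measurable_pi_apply i).comap_le) h2 hST
  exact (Indep_iff _ _ _).1 h3 A B (dp_meas hA dA) (dp_meas hB dB)

/-- **Approximation** by events depending on finitely many coordinates. -/
theorem dp_approx' (μ : ι → Measure ℝ) [∀ i, IsProbabilityMeasure (μ i)] {A : Set (ι → ℝ)}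
    (hA : MeasurableSet A) {ε : ENNReal} (hε : 0 < ε) :
    ∃ (I : Finset ι) (A' : Set (ι → ℝ)), MeasurableSet A' ∧ Dp A' (I : Set ι) ∧
      Measure.infinitePi μ (symmDiff A' A) < ε := by
  obtain ⟨A', hA', h⟩ := exists_measure_symmDiff_lt_of_generateFrom_isSetRing
    (μ := Measure.infinitePi μ) (C := measurableCylinders (fun _ : ι => ℝ))
    isSetRing_measurableCylinders
    ⟨{univ}, countable_singleton _, by
      rw [singleton_subset_iff]; exact univ_mem_measurableCylinders _, by simp⟩
    (generateFrom_measurableCylinders).symm hA hε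
  obtain ⟨I, S, hS, rfl⟩ := (mem_measurableCylinders _).1 hA'
  refine ⟨I, _, MeasurableSet.of_mem_measurableCylinders hA', ?_, h⟩
  intro x x' hx
  rw [mem_cylinder, mem_cylinder]
  have : I.restrict x = I.restrict x' := by
    funext i
    exact hx i i.2
  rw [this]

end prod

variable {d : ℕ}

/-- The law of the configuration of the edges of weight zero, for independent passage times which
are zero with the same probability. -/
theorem law_zc' {Ω : Type} [MeasurableSpace Ω] {P : Measure Ω} [IsProbabilityMeasure P]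
    {X : E d → Ω → ℝ} (hX : ∀ e, Measurable (X e)) (hi : iIndepFun X P) (p : unitInterval)
    (hp : ∀ e, P {ω | X e ω = 0} = ENNReal.ofReal p) {A : Set (Sym2 (Z d) → Bool)}
    (hA : MeasurableSet A) (hd : DepOn A (Ed d)) :
    P {ω | zc (wt fun e => X e ω) ∈ A} = mu (bondM d) p A := by
  classical
  have hmS : Measurable (fun x : ℝ => decide (x = 0)) := by
    refine measurable_to_bool ?_
    have h1 : (fun x : ℝ => decide (x = 0)) ⁻¹' {true} = {0} := by
      ext u; simp
    rw [h1]
    exact measurableSet_singleton _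
  have hi2 : iIndepFun (fun e => (fun x : ℝ => decide (x = 0)) ∘ X e) P :=
    hi.comp (fun _ x => decide (x = 0)) (fun _ => hmS)
  have hX2 : ∀ e, Measurable ((fun x : ℝ => decide (x = 0)) ∘ X e) := fun e => hmS.comp (hX e)
  have hlaw : ∀ e, Measure.map ((fun x : ℝ => decide (x = 0)) ∘ X e) P = bern p := by
    intro e
    refine Measure.ext_of_singleton fun b => ?_
    rw [Measure.map_apply (hX2 e) (measurableSet_singleton b)]
    have h0 : MeasurableSet {ω | X e ω = 0} := hX e (measurableSet_singleton 0)
    cases b with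
    | true =>
      have h1 : ((fun x : ℝ => decide (x = 0)) ∘ X e) ⁻¹' {true} = {ω | X e ω = 0} := by
        ext u; simp
      rw [h1, hp]
      exact (Pool.Agent.W400.PC.bern_true p).symm
    | false =>
      have h1 : ((fun x : ℝ => decide (x = 0)) ∘ X e) ⁻¹' {false} = {ω | X e ω = 0}ᶜ := by
        ext u; simp
      rw [h1, prob_compl_eq_one_sub h0, hp, Pool.Agent.W400.PC.bern_false,
        ENNReal.ofReal_sub _ p.2.1, ENNReal.ofReal_one]
  have h3 := (iIndepFun_iff_map_fun_eq_infinitePi_map₀' (fun e => (hX2 e).aemeasurable)).1 hi2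
  have h4 : P.map (fun ω e => decide (X e ω = 0)) = pm (fun _ : E d => p) := by
    unfold pm
    rw [← funext hlaw]
    exact h3
  have hm : Measurable (fun (ω : Ω) (e : E d) => decide (X e ω = 0)) :=
    measurable_pi_lambda _ hX2
  have hA' : MeasurableSet {η : E d → Bool | ex η ∈ A} := ex_meas hA
  have h5 : mu (bondM d) p A = pm (fun _ : Sym2 (Z d) => p) A := rfl
  rw [h5, ← mu_ex hA hd, ← h4, Measure.map_apply hm hA']
  congr 1
  ext ω
  refine hd _ _ ?_
  rintro _ ⟨e, rfl⟩
  show zc (wt fun e => X e ω) (ed e) = ex (fun e => decide (X e ω = 0)) (ed e)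
  rw [ex_ed]
  unfold zc
  rw [wt_ed]

/-! ### The coupling -/

/-- A part `p` of the mass at `0` is moved to `-1`. -/
def nu (p : unitInterval) (μ : Measure ℝ) : Measure ℝ :=
  ENNReal.ofReal p • Measure.dirac (-1) + (μ {0} - ENNReal.ofReal p) • Measure.dirac 0 +
    μ.restrict {0}ᶜ

/-- The map back. -/
def gb (z : ℝ) : ℝ := if z = -1 then 0 else z

lemma gb_meas : Measurable gb :=
  Measurable.ite (measurableSet_singleton (-1 : ℝ)) measurable_const measurable_id

lemma nu_prob {p : unitInterval} {μ : Measure ℝ} [IsProbabilityMeasure μ]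
    (hp : ENNReal.ofReal p ≤ μ {0}) : IsProbabilityMeasure (nu p μ) := by
  constructor
  unfold nu
  rw [Measure.add_apply, Measure.add_apply, Measure.smul_apply, Measure.smul_apply,
    Measure.dirac_apply_of_mem (mem_univ _), Measure.dirac_apply_of_mem (mem_univ _),
    Measure.restrict_apply_univ, smul_eq_mul, smul_eq_mul, mul_one, mul_one,
    add_tsub_cancel_of_le hp, measure_add_measure_compl (measurableSet_singleton (0 : ℝ)),
    measure_univ]

lemma nu_neg {p : unitInterval} {μ : Measure ℝ} (hneg : μ (Iio 0) = 0) :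
    nu p μ {-1} = ENNReal.ofReal p := by
  unfold nu
  rw [Measure.add_apply, Measure.add_apply, Measure.smul_apply, Measure.smul_apply,
    Measure.dirac_apply_of_mem (mem_singleton _),
    Measure.dirac_apply' _ (measurableSet_singleton _),
    Measure.restrict_apply (measurableSet_singleton _)]
  have h1 : μ ({-1} ∩ {0}ᶜ) = 0 := by
    refine measure_mono_null ?_ hneg
    rintro x ⟨hx, _⟩
    rw [mem_singleton_iff.1 hx]
    show (-1 : ℝ) < 0
    norm_num
  rw [h1, indicator_of_notMem (by
    rw [mem_singleton_iff]; norm_num : (0 : ℝ) ∉ ({-1} : Set ℝ))]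
  simp

lemma nu_map {p : unitInterval} {μ : Measure ℝ} (hneg : μ (Iio 0) = 0)
    (hp : ENNReal.ofReal p ≤ μ {0}) : Measure.map gb (nu p μ) = μ := by
  have h1 : Measure.map gb (μ.restrict {0}ᶜ) = μ.restrict {0}ᶜ := by
    have h2 : gb =ᵐ[μ.restrict {0}ᶜ] id := by
      have h3 : ∀ᵐ z ∂(μ.restrict {0}ᶜ), z ∉ Iio (0 : ℝ) := by
        have h4 : μ.restrict {0}ᶜ (Iio 0) = 0 :=
          nonpos_iff_eq_zero.1 ((Measure.restrict_apply_le _ _).trans hneg.le)
        exact measure_eq_zero_iff_ae_notMem.1 h4
      filter_upwards [h3] with z hz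
      unfold gb
      rw [if_neg]
      · rfl
      · rintro rfl
        exact hz (by show (-1 : ℝ) < 0; norm_num)
    rw [Measure.map_congr h2, Measure.map_id]
  unfold nu
  have d1 : Measure.map gb (Measure.dirac (-1)) = Measure.dirac (gb (-1)) :=
    Measure.map_dirac' gb_meas _
  have d2 : Measure.map gb (Measure.dirac 0) = Measure.dirac (gb 0) :=
    Measure.map_dirac' gb_meas _
  rw [Measure.map_add _ _ gb_meas, Measure.map_add _ _ gb_meas, Measure.map_smul,
    Measure.map_smul, d1, d2, h1]
  have e1 : gb (-1) = 0 := by unfold gb; rw [if_pos rfl]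
  have e2 : gb 0 = 0 := by
    unfold gb
    rw [if_neg (by norm_num)]
  rw [e1, e2, ← add_smul, add_tsub_cancel_of_le hp, ← Measure.restrict_singleton,
    Measure.restrict_add_restrict_compl (measurableSet_singleton (0 : ℝ))]

/-- A family of passage times: zero at `-1`, small at `0`, two elsewhere. -/
def hb (e : E d) (z : ℝ) : ℝ :=
  if z = -1 then 0 else if z = 0 then 1 / 2 / 2 ^ (Encodable.encode e) else 2

lemma hb_meas (e : E d) : Measurable (hb e) :=
  Measurable.ite (measurableSet_singleton (-1 : ℝ)) measurable_const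
    (Measurable.ite (measurableSet_singleton (0 : ℝ)) measurable_const measurable_const)

lemma hb_zero {e : E d} {z : ℝ} : hb e z = 0 ↔ z = -1 := by
  unfold hb
  constructor
  · intro h
    by_contra hz
    rw [if_neg hz] at h
    split_ifs at h
    · have : (0 : ℝ) < 1 / 2 / 2 ^ (Encodable.encode e) := by positivity
      linarith
    · norm_num at h
  · intro h
    rw [if_pos h]

lemma hb_nonneg (e : E d) (z : ℝ) : 0 ≤ hb e z := by
  unfold hb
  split_ifs <;> positivity

lemma hb_lt {e : E d} {z : ℝ} (h : hb e z < 2) : gb z = 0 := by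
  unfold hb at h
  unfold gb
  by_cases h1 : z = -1
  · rw [if_pos h1]
  · rw [if_neg h1] at h ⊢
    by_contra h2
    rw [if_neg h2] at h
    linarith

lemma hb_le {e : E d} {z : ℝ} (h : gb z = 0) : hb e z ≤ 1 / 2 / 2 ^ (Encodable.encode e) := by
  unfold gb at h
  unfold hb
  by_cases h1 : z = -1
  · rw [if_pos h1]
    positivity
  · rw [if_neg h1] at h ⊢
    rw [if_pos h]

/-- The sum of the small weights. -/
lemma sum_small (T : Finset (E d)) : ∑ e ∈ T, (1 / 2 / 2 ^ (Encodable.encode e) : ℝ) ≤ 1 := by
  have h1 : ∑ e ∈ T, (1 / 2 / 2 ^ (Encodable.encode e) : ℝ) =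
      ∑ n ∈ T.map ⟨Encodable.encode, Encodable.encode_injective⟩, (1 / 2 / 2 ^ n : ℝ) := by
    rw [Finset.sum_map]
    rfl
  rw [h1]
  have h2 := (summable_geometric_two' (1 : ℝ)).sum_le_tsum
    (T.map ⟨Encodable.encode, Encodable.encode_injective⟩) (fun n _ => by positivity)
  rwa [tsum_geometric_two'] at h2

end

end Pool.Agent.J6H99.GEO
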