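import Pool.Agent.J6H99.GEO.Det

set_option autoImplicit false

open MeasureTheory Set ProbabilityTheory Filter
open scoped Topology

/-!
First-passage percolation on `Z^d`, `d ≥ 3`: minimal paths for independent passage times which
vanish with probability at least `p > p_c(d)`, not necessarily identically distributed.
-/

namespace Pool.Agent.J6H99.GEO

open Pool.Agent.Y990.CB
open Pool.Agent.W783.PC (pm DepOn Inc bern)
open Pool.Agent.Helper401_FP
open Pool.Agent.Helper401_HS (not_in Hs PH cl_meas cl_meas' half sg sg_Nb sg_apply mb abs_unit)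

noncomputable section

variable {d : ℕ}

/-- **The explosion event has probability zero.** -/
theorem As_zero' (μ : E d → Measure ℝ) [∀ e, IsProbabilityMeasure (μ e)] (i : Fin d) (t : ℤˣ)
    {θ : ℝ} (hθ : 0 < θ) (hθ1 : θ ≤ 1)
    (hC : ∀ (n : ℤ) (v : Z d), (t : ℤ) * v i = n →
      ENNReal.ofReal θ ≤ Measure.infinitePi μ (Cv i t n v)) (M : ℝ)
    (a : Z d) (f : ℕ → Z d) :
    Measure.infinitePi μ (As i t M a f) = 0 := by
  classical
  set Q := Measure.infinitePi μ with hQ
  by_contra hne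
  set q := Q.real (As i t M a f) with hq
  have hq0 : 0 < q := ENNReal.toReal_pos hne (measure_ne_top _ _)
  set ε : ℝ := θ * q / 4 with hε
  have hε0 : 0 < ε := by positivity
  obtain ⟨I, A', hA'm, hA'd, hA'⟩ := dp_approx' μ (As_meas i t M a f)
    (ε := ENNReal.ofReal ε) (by rw [ENNReal.ofReal_pos]; exact hε0)
  rw [← hQ] at hA'
  have hsym : Q.real (symmDiff A' (As i t M a f)) < ε := by
    have h1 := (ENNReal.toReal_lt_toReal (measure_ne_top Q _) ENNReal.ofReal_ne_top).2 hA'
    rwa [ENNReal.toReal_ofReal hε0.le] at h1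
  have hd1 : Q.real (A' \ As i t M a f) ≤ ε := by
    refine (measureReal_mono ?_ (measure_ne_top _ _)).trans hsym.le
    exact fun x hx => Or.inl hx
  have hd2 : Q.real (As i t M a f \ A') ≤ ε := by
    refine (measureReal_mono ?_ (measure_ne_top _ _)).trans hsym.le
    exact fun x hx => Or.inr hx
  -- a level above all edges of `I`
  obtain ⟨n, hn1, hn2⟩ : ∃ n : ℤ, (t : ℤ) * a i < n ∧ ∀ e ∈ I, (t : ℤ) * e.1 i < n := by
    obtain ⟨N, hN⟩ := (I.finite_toSet.image (fun e : E d => (t : ℤ) * e.1 i)).bddAbove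
    refine ⟨max N ((t : ℤ) * a i) + 1, ?_, ?_⟩
    · have := le_max_right N ((t : ℤ) * a i)
      omega
    · intro e he
      have h1 : (t : ℤ) * e.1 i ≤ N := hN ⟨e, Finset.mem_coe.2 he, rfl⟩
      have := le_max_left N ((t : ℤ) * a i)
      omega
  have hI : (I : Set (E d)) ⊆ (Ih i t n)ᶜ := by
    intro e he hc
    have h1 := hn2 e (Finset.mem_coe.1 he)
    have h2 : e.1 ∉ Hn i t n := fun h => absurd (show n ≤ (t : ℤ) * e.1 i from h) (not_le.2 h1)
    exact not_in h2 hc
  have hA'd' : Dp A' (Ih i t n)ᶜ := hA'd.mono hI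
  -- independence
  have hind : ∀ k, Q (A' ∩ Dv i t M a f n k) * ENNReal.ofReal θ ≤
      Q (A' ∩ (Dv i t M a f n k ∩ Cv i t n (f k))) := by
    intro k
    by_cases hlev : (t : ℤ) * f k i = n
    · rw [← inter_assoc, hQ, dp_indep' μ (hA'm.inter (Dv_meas i t M a f n k)) (Cv_meas i t n (f k))
        (hA'd'.inter (Dv_dp i t M a f n k)) (Cv_dp i t n (f k)) disjoint_compl_left]
      exact mul_le_mul_right (hC n (f k) hlev) _
    · have h1 : Dv i t M a f n k = ∅ := by
        rw [Set.eq_empty_iff_forall_notMem]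
        intro x hx
        exact hlev hx.1.1
      rw [h1]
      simp
  set U1 : Set (E d → ℝ) := ⋃ k, (A' ∩ (Dv i t M a f n k ∩ Cv i t n (f k))) with hU1
  set U2 : Set (E d → ℝ) := ⋃ k, (A' ∩ Dv i t M a f n k) with hU2
  have hsum : Q U2 * ENNReal.ofReal θ ≤ Q U1 := by
    rw [hU1, hU2, measure_iUnion, measure_iUnion, ← ENNReal.tsum_mul_right]
    · exact ENNReal.tsum_le_tsum hind
    · intro j k hjk
      rw [Function.onFun, Set.disjoint_left]
      intro x hx hx'
      exact hjk (Dv_disj hx.2.1 hx'.2.1)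
    · exact fun k => hA'm.inter ((Dv_meas i t M a f n k).inter (Cv_meas i t n (f k)))
    · intro j k hjk
      rw [Function.onFun, Set.disjoint_left]
      intro x hx hx'
      exact hjk (Dv_disj hx.2 hx'.2)
    · exact fun k => hA'm.inter (Dv_meas i t M a f n k)
  have hsumR : Q.real U2 * θ ≤ Q.real U1 := by
    have h1 := ENNReal.toReal_mono (measure_ne_top Q _) hsum
    rw [ENNReal.toReal_mul, ENNReal.toReal_ofReal hθ.le] at h1
    exact h1
  have h1 : Q.real U1 ≤ ε := by
    refine (measureReal_mono ?_ (measure_ne_top _ _)).trans hd1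
    intro x hx
    rw [hU1, mem_iUnion] at hx
    obtain ⟨k, hxA, hxD, hxC⟩ := hx
    refine ⟨hxA, fun hc => ?_⟩
    unfold As at hc
    rw [mem_iInter₂] at hc
    have h2 := hc n hn1
    rw [mem_iUnion] at h2
    obtain ⟨k', h3, h4⟩ := h2
    have := Dv_disj hxD h3
    subst this
    exact h4 hxC
  have h2 : q - ε ≤ Q.real U2 := by
    have h3 : q ≤ Q.real (A' ∩ As i t M a f) + Q.real (As i t M a f \ A') := by
      rw [hq]
      have h4 : As i t M a f ⊆ (A' ∩ As i t M a f) ∪ (As i t M a f \ A') := by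
        intro x hx
        by_cases hxA : x ∈ A'
        · exact Or.inl ⟨hxA, hx⟩
        · exact Or.inr ⟨hx, hxA⟩
      exact (measureReal_mono h4 (measure_ne_top _ _)).trans (measureReal_union_le _ _)
    have h5 : Q.real (A' ∩ As i t M a f) ≤ Q.real U2 := by
      refine measureReal_mono ?_ (measure_ne_top _ _)
      rintro x ⟨hxA, hxAs⟩
      unfold As at hxAs
      rw [mem_iInter₂] at hxAs
      have h6 := hxAs n hn1
      rw [mem_iUnion] at h6
      obtain ⟨k, h7, _⟩ := h6
      rw [hU2, mem_iUnion]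
      exact ⟨k, hxA, h7⟩
    linarith
  have h3 : (q - ε) * θ ≤ ε := by
    calc (q - ε) * θ ≤ Q.real U2 * θ := mul_le_mul_of_nonneg_right h2 hθ.le
      _ ≤ Q.real U1 := hsumR
      _ ≤ ε := h1
  have h4 : ε ≤ q / 4 := by
    rw [hε]
    have : θ * q ≤ 1 * q := mul_le_mul_of_nonneg_right hθ1 hq0.le
    linarith
  have h5 : (3 * q / 4) * θ ≤ ε := by
    refine le_trans ?_ h3
    exact mul_le_mul_of_nonneg_right (by linarith) hθ.le
  rw [hε] at h5
  nlinarith

/-- **Minimal walks above the critical point**, for independent passage times. -/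
theorem sup' (hd : 3 ≤ d) (μ : E d → Measure ℝ) [∀ e, IsProbabilityMeasure (μ e)]
    (p : unitInterval) (hneg : ∀ e, μ e (Iio 0) = 0) (hp0 : ∀ e, ENNReal.ofReal p ≤ μ e {0})
    (hpc : pc (bondM d) < p)
    (Ω : Type) [MeasurableSpace Ω] (P : Measure Ω) [IsProbabilityMeasure P]
    (X : E d → Ω → ℝ) (hX : ∀ e, Measurable (X e)) (hi : iIndepFun X P)
    (hμ : ∀ e, Measure.map (X e) P = μ e) :
    ∀ᵐ ω ∂P, ∀ x y : Z d, ∃ w : (Lat d).Walk x y, ∀ w' : (Lat d).Walk x y,
      cost (wt fun e => X e ω) w ≤ cost (wt fun e => X e ω) w' := by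
  classical
  -- the coupling
  have hν : ∀ e, IsProbabilityMeasure (nu p (μ e)) := fun e => nu_prob (hp0 e)
  set Q : Measure (E d → ℝ) := Measure.infinitePi (fun e => nu p (μ e)) with hQ
  have hQp : IsProbabilityMeasure Q := by rw [hQ]; infer_instance
  have hmapG : Q.map Gz = Measure.infinitePi μ := by
    have h1 := Measure.infinitePi_map_pi (μ := fun e : E d => nu p (μ e))
      (f := fun _ : E d => gb) (fun _ => gb_meas)
    have h2 : (fun e : E d => (nu p (μ e)).map gb) = μ := funext fun e => nu_map (hneg e) (hp0 e)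
    rw [h2] at h1
    exact h1
  have hindH : iIndepFun (fun (e : E d) (z : E d → ℝ) => hb e (z e)) Q :=
    iIndepFun_infinitePi (X := fun (e : E d) (y : ℝ) => hb e y) (fun e => hb_meas e)
  have hHm : ∀ e : E d, Measurable (fun z : E d → ℝ => hb e (z e)) := fun e =>
    (hb_meas e).comp (measurable_pi_apply e)
  have hHp : ∀ e : E d, Q {z | hb e (z e) = 0} = ENNReal.ofReal p := by
    intro e
    have h1 : {z : E d → ℝ | hb e (z e) = 0} = (fun z : E d → ℝ => z e) ⁻¹' {-1} := by
      ext z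
      exact hb_zero
    rw [h1, ← Measure.map_apply (measurable_pi_apply e) (measurableSet_singleton _), hQ,
      Measure.infinitePi_map_eval, nu_neg (hneg e)]
  have hlawH : ∀ A : Set (Sym2 (Z d) → Bool), MeasurableSet A → DepOn A (Ed d) →
      Q {z | zc (wt (Hz z)) ∈ A} = mu (bondM d) p A := fun A hA hdA =>
    law_zc' (X := fun (e : E d) (z : E d → ℝ) => hb e (z e)) hHm hindH p hHp hA hdA
  have hmapH : Q.map Hz = Measure.infinitePi (fun e => (nu p (μ e)).map (hb e)) :=
    Measure.infinitePi_map_pi (μ := fun e : E d => nu p (μ e))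
      (f := fun e : E d => hb e) (fun e => hb_meas e)
  have hprobH : ∀ e, IsProbabilityMeasure ((nu p (μ e)).map (hb e)) := fun e =>
    Measure.isProbabilityMeasure_map (hb_meas e).aemeasurable
  -- half-spaces
  have hθ : ∀ i, 0 < (mb d p).real (PH i) := fun i => half hd hpc i
  have hHC : ∀ (i : Fin d) (t : ℤˣ) (n : ℤ) (v : Z d), (t : ℤ) * v i = n →
      ENNReal.ofReal ((mb d p).real (PH i)) ≤ Q {z | Hz z ∈ Cv i t n v} := by
    intro i t n v hv
    have h1 := hlawH _ (cl_meas (Hn i t n) v) (infin_dep _ _)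
    have h2 : ENNReal.ofReal ((mb d p).real (PH i)) = mb d p (PH i) :=
      ENNReal.ofReal_toReal (measure_ne_top _ _)
    rw [h2, ← half_sym p i t hv]
    exact h1.ge
  have hHC' : ∀ (i : Fin d) (t : ℤˣ) (n : ℤ) (v : Z d), (t : ℤ) * v i = n →
      ENNReal.ofReal ((mb d p).real (PH i)) ≤
        Measure.infinitePi (fun e => (nu p (μ e)).map (hb e)) (Cv i t n v) := by
    intro i t n v hv
    rw [← hmapH, Measure.map_apply Hz_meas (Cv_meas i t n v)]
    exact hHC i t n v hv
  have hGC' : ∀ (i : Fin d) (t : ℤˣ) (n : ℤ) (v : Z d), (t : ℤ) * v i = n →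
      ENNReal.ofReal ((mb d p).real (PH i)) ≤ Measure.infinitePi μ (Cv i t n v) := by
    intro i t n v hv
    rw [← hmapG, Measure.map_apply Gz_meas (Cv_meas i t n v)]
    refine (hHC i t n v hv).trans (measure_mono ?_)
    intro z hz
    have hz' : (cl (bondM d) (zc (wt (Hz z))) (Hn i t n) v).Infinite := hz
    exact hz'.mono (cl_mono (M := bondM d) zc_le (Subset.refl _) v)
  obtain ⟨f, hf⟩ := exists_surjective_nat (Z d)
  -- the auxiliary passage times do not explode
  have hbadQ : ∀ᵐ z ∂Q, ∀ x, ¬ Bad (wt (Hz z)) x := by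
    have hexp : ∀ᵐ z ∂Q, ∀ (i : Fin d) (t : ℤˣ) (M : ℕ) (a : Z d), Hz z ∉ As i t M a f := by
      rw [ae_all_iff]; intro i
      rw [ae_all_iff]; intro t
      rw [ae_all_iff]; intro M
      rw [ae_all_iff]; intro a
      have h1 := As_zero' (fun e => (nu p (μ e)).map (hb e)) i t (hθ i) measureReal_le_one
        (fun n v hv => hHC' i t n v hv) (M : ℝ) a f
      rw [← hmapH, Measure.map_apply Hz_meas (As_meas i t M a f)] at h1
      rw [ae_iff]
      convert h1 using 2
      ext z
      exact not_not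
    filter_upwards [hexp] with z h2 a hb
    obtain ⟨i, t, M, hbD⟩ := badD_of_bad hb
    exact h2 i t M a (bad_sub_As (Nat.cast_nonneg M) hf (fun e => hb_nonneg e (z e)) hbD)
  -- the infinite cluster of marked edges is unique
  have huniQ : ∀ᵐ z ∂Q, ∀ u v : Z d, zc (wt (Hz z)) ∉ Nu (bondM d) u v := by
    rw [ae_all_iff]; intro u
    rw [ae_all_iff]; intro v
    have h1 := hlawH _ (Nu_meas (bondM d) u v) (Nu_dep u v)
    rw [Nu_zero hd hpc.le] at h1
    rw [ae_iff]
    convert h1 using 2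
    ext z
    exact not_not
  -- the infinite zero cluster is unique
  have hNu : ∀ u v : Z d, Measure.infinitePi μ {x | zc (wt x) ∈ Nu (bondM d) u v} = 0 := by
    intro u v
    have hm : MeasurableSet {x : E d → ℝ | zc (wt x) ∈ Nu (bondM d) u v} :=
      zc_meas (Nu_meas (bondM d) u v)
    rw [← hmapG, Measure.map_apply Gz_meas hm]
    have h1 : ∀ᵐ z ∂Q, z ∉ Gz ⁻¹' {x : E d → ℝ | zc (wt x) ∈ Nu (bondM d) u v} := by
      filter_upwards [hbadQ, huniQ] with z h1 h2 hz
      have hz' : zc (wt (Gz z)) ∈ Nu (bondM d) u v := hz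
      exact hz'.2.2 (uniq_det h1 h2 hz'.1 hz'.2.1)
    exact measure_eq_zero_iff_ae_notMem.2 h1
  -- the weights are nonnegative
  have hnn : ∀ᵐ ω ∂P, ∀ e, 0 ≤ X e ω := by
    rw [ae_all_iff]
    intro e
    have h1 : P {ω | X e ω ∈ Iio (0 : ℝ)} = 0 := by
      have := Measure.map_apply (hX e) (measurableSet_Iio (a := (0 : ℝ))) (μ := P)
      rw [hμ e, hneg] at this
      exact this.symm
    rw [ae_iff]
    convert h1 using 2
    ext ω
    simp
  -- the law of the family
  have hlaw : P.map (fun ω e => X e ω) = Measure.infinitePi μ := by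
    have h3 := (iIndepFun_iff_map_fun_eq_infinitePi_map₀' (fun e => (hX e).aemeasurable)).1 hi
    rw [h3]
    congr 1
    funext e
    exact hμ e
  have hXm : Measurable (fun (ω : Ω) (e : E d) => X e ω) := measurable_pi_lambda _ hX
  -- no explosion
  have hexp : ∀ᵐ ω ∂P, ∀ (i : Fin d) (t : ℤˣ) (M : ℕ) (a : Z d),
      (fun e => X e ω) ∉ As i t M a f := by
    rw [ae_all_iff]; intro i
    rw [ae_all_iff]; intro t
    rw [ae_all_iff]; intro M
    rw [ae_all_iff]; intro a
    have h1 := As_zero' μ i t (hθ i) measureReal_le_one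
      (fun n v hv => hGC' i t n v hv) (M : ℝ) a f
    rw [← hlaw, Measure.map_apply hXm (As_meas i t M a f)] at h1
    rw [ae_iff]
    convert h1 using 2
    ext ω
    exact not_not
  -- uniqueness
  have huni : ∀ᵐ ω ∂P, ∀ u v : Z d, zc (wt fun e => X e ω) ∉ Nu (bondM d) u v := by
    rw [ae_all_iff]; intro u
    rw [ae_all_iff]; intro v
    have hm : MeasurableSet {x : E d → ℝ | zc (wt x) ∈ Nu (bondM d) u v} :=
      zc_meas (Nu_meas (bondM d) u v)
    have h1 := hNu u v
    rw [← hlaw, Measure.map_apply hXm hm] at h1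
    rw [ae_iff]
    convert h1 using 2
    ext ω
    exact not_not
  filter_upwards [hnn, hexp, huni] with ω h1 h2 h3 x y
  refine min_of_no_bad (wt_nonneg h1) ?_ ?_ x y
  · intro a hb
    obtain ⟨i, t, M, hbD⟩ := badD_of_bad hb
    exact h2 i t M a (bad_sub_As (Nat.cast_nonneg M) hf h1 hbD)
  · intro u v hu hv
    by_contra hc
    exact h3 u v ⟨hu, hv, hc⟩

end

end Pool.Agent.J6H99.GEO
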